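import Pool.Agent.Q301.AM.Mod

/-!
# The canonical Ramsey theorem can fail for a set with Ramsey's theorem for all numbers of colours

If there is a model of ZF, then there is a model of ZF with a set `X` such that `CRT(X)` fails and
`RT²_n(X)` holds for all natural numbers `n`.
-/

namespace Pool.Agent.Results.MP_5f5b92_lc.EveryNumberOfColours

open FirstOrder FirstOrder.Language
open Pool.Agent.Helper672.Plain (LSet)
open Pool.Agent.H635Amen (ZF)
open Pool.Agent.H310Cards (IsNat)
open Pool.Agent.Q301.AM

universe u

theorem result (h : ∃ (M : Type u) (_ : LSet.Structure M), ZF M) :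
    ∃ (N : Type u) (_ : LSet.Structure N), ZF N ∧
      ∃ X : N, ¬ CRT X ∧ ∀ n, IsNat n → RT2 n X := by
  exact Pool.Agent.Q301.AM.exists_am h

end Pool.Agent.Results.MP_5f5b92_lc.EveryNumberOfColours
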